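import Pool.Agent.H39.Newt3.Base

/-! # NEWTON3, module RLB: translation by `e_l` -/

set_option autoImplicit false

namespace Pool.Newt3

open MvPolynomial Pool.Agent.H39.MonoR Pool.Agent.H75.Mono Pool.Newt Pool.Newt2

open Classical in
theorem rlb_key {σ I : Type} [Fintype σ] [Fintype I] (a : I → σ → ℕ) (X : ℂ) (hX : X ≠ 0)
    (φ : Co σ I → ℤ → ℂ) (l : σ)
    (hl : φ (some (Sum.inl l)) = fun v => if 0 ≤ v then 1 else 0) (m : I → ℤ) (N : ℤ)
    (u : σ → ℤ) :
    (∏ ξ, shf (Function.update φ (some (Sum.inl l)) fun v => if v = 0 then 1 else 0) m ξ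
        (lam a u N ξ)) * X ^ (∑ l, u l) =
      (∏ ξ, shf φ m ξ (lam a u N ξ)) * X ^ (∑ l, u l) -
      X * ((∏ ξ, shf φ ((fun i => -(a i l : ℤ)) + m) ξ (lam a (u - (Pi.single l 1 : σ → ℤ)) N ξ)) *
        X ^ (∑ l', (u - (Pi.single l 1 : σ → ℤ)) l')) := by
  have hprod : ∀ (ψ : Co σ I → ℤ → ℂ) (v : Co σ I → ℤ), ∏ ξ, ψ ξ (v ξ) =
      ψ (some (Sum.inl l)) (v (some (Sum.inl l))) *
        ∏ ξ ∈ Finset.univ.erase (some (Sum.inl l)), ψ ξ (v ξ) := fun ψ v =>
    (Finset.mul_prod_erase Finset.univ (fun ξ => ψ ξ (v ξ)) (Finset.mem_univ _)).symm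
  rw [hprod, hprod, hprod]
  have hA : ∏ ξ ∈ Finset.univ.erase (some (Sum.inl l)),
      shf (Function.update φ (some (Sum.inl l)) fun v => if v = 0 then 1 else 0) m ξ
        (lam a u N ξ) = ∏ ξ ∈ Finset.univ.erase (some (Sum.inl l)),
      shf φ m ξ (lam a u N ξ) := by
    refine Finset.prod_congr rfl fun ξ hξ => ?_
    have hne := Finset.ne_of_mem_erase hξ
    rcases ξ with _ | l' | i
    · simp [shf]
    · have h1 : l' ≠ l := fun h => hne (by rw [h])
      simp only [shf]
      rw [Function.update_of_ne hne]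
    · simp only [shf]
      rw [Function.update_of_ne hne]
  have hB : ∏ ξ ∈ Finset.univ.erase (some (Sum.inl l)),
      shf φ ((fun i => -(a i l : ℤ)) + m) ξ (lam a (u - (Pi.single l 1 : σ → ℤ)) N ξ) =
      ∏ ξ ∈ Finset.univ.erase (some (Sum.inl l)), shf φ m ξ (lam a u N ξ) := by
    refine Finset.prod_congr rfl fun ξ hξ => ?_
    have hne := Finset.ne_of_mem_erase hξ
    rcases ξ with _ | l' | i
    · rfl
    · have h1 : l' ≠ l := fun h => hne (by rw [h])
      show φ (some (Sum.inl l')) ((u - (Pi.single l 1 : σ → ℤ)) l') = φ (some (Sum.inl l')) (u l')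
      rw [Pi.sub_apply, Pi.single_eq_of_ne h1, sub_zero]
    · show φ (some (Sum.inr i)) (((∑ l', (u - (Pi.single l 1 : σ → ℤ)) l' * (a i l' : ℤ)) - N) -
        (-(a i l : ℤ) + m i)) = φ (some (Sum.inr i)) (((∑ l', u l' * (a i l' : ℤ)) - N) - m i)
      congr 1
      have : ∑ l', (u - (Pi.single l 1 : σ → ℤ)) l' * (a i l' : ℤ) =
          (∑ l', u l' * (a i l' : ℤ)) - (a i l : ℤ) := by
        simp only [Pi.sub_apply, sub_mul, Finset.sum_sub_distrib]
        congr 1
        rw [Finset.sum_eq_single l]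
        · rw [Pi.single_eq_same, one_mul]
        · intro b _ hb
          rw [Pi.single_eq_of_ne hb, zero_mul]
        · intro h
          exact absurd (Finset.mem_univ l) h
      rw [this]
      ring
  rw [hA, hB]
  have hS : ∑ l', (u - (Pi.single l 1 : σ → ℤ)) l' = (∑ l', u l') - 1 := by
    simp only [Pi.sub_apply, Finset.sum_sub_distrib]
    congr 1
    rw [Finset.sum_eq_single l]
    · rw [Pi.single_eq_same]
    · intro b _ hb
      rw [Pi.single_eq_of_ne hb]
    · intro h
      exact absurd (Finset.mem_univ l) h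
  rw [hS, zpow_sub_one₀ hX]
  have h1 : shf (Function.update φ (some (Sum.inl l)) fun v => if v = 0 then 1 else 0) m
      (some (Sum.inl l)) (lam a u N (some (Sum.inl l))) = if u l = 0 then 1 else 0 := by
    show Function.update φ (some (Sum.inl l)) (fun v => if v = 0 then 1 else 0)
      (some (Sum.inl l)) (u l) = _
    rw [Function.update_self]
  have h2 : shf φ m (some (Sum.inl l)) (lam a u N (some (Sum.inl l))) =
      if 0 ≤ u l then 1 else 0 := by
    show φ (some (Sum.inl l)) (u l) = _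
    rw [hl]
  have h3 : shf φ ((fun i => -(a i l : ℤ)) + m) (some (Sum.inl l))
      (lam a (u - (Pi.single l 1 : σ → ℤ)) N (some (Sum.inl l))) = if 0 ≤ u l - 1 then 1 else 0 := by
    show φ (some (Sum.inl l)) ((u - (Pi.single l 1 : σ → ℤ)) l) = _
    rw [hl, Pi.sub_apply, Pi.single_eq_same]
  rw [h1, h2, h3]
  have h4 : (if u l = 0 then (1 : ℂ) else 0) =
      (if 0 ≤ u l then (1 : ℂ) else 0) - (if 0 ≤ u l - 1 then (1 : ℂ) else 0) := by
    split_ifs <;> first | omega | norm_num
  rw [h4]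
  field_simp

open Classical in
theorem sRlb : SRlb := by
  intro σ I _ _ a X hX φ hOK l hl
  have hS3 : ∀ (m : I → ℤ) (N : ℤ), Summable fun u : σ → ℤ =>
      (∏ ξ, shf φ m ξ (lam a (u - (Pi.single l 1 : σ → ℤ)) N ξ)) *
        X ^ (∑ l', (u - (Pi.single l 1 : σ → ℤ)) l') := fun m N =>
    (Equiv.summable_iff (Equiv.subRight (Pi.single l (1 : ℤ) : σ → ℤ))).2 (hOK m N)
  refine ⟨fun m N => ?_, fun h => ?_⟩
  · have h := (hOK m N).sub ((hS3 ((fun i => -(a i l : ℤ)) + m) N).mul_left X)
    exact (summable_congr fun u => rlb_key a X hX φ l hl m N u).mpr h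
  · have key : ∀ (m : I → ℤ) (N : ℕ),
        PowerSeries.coeff N (SerC a X (shf (Function.update φ (some (Sum.inl l))
          fun v => if v = 0 then 1 else 0) m)) =
        PowerSeries.coeff N (SerC a X (shf φ m)) -
          X * PowerSeries.coeff N (SerC a X (shf φ ((fun i => -(a i l : ℤ)) + m))) := by
      intro m N
      unfold SerC
      rw [PowerSeries.coeff_mk, PowerSeries.coeff_mk, PowerSeries.coeff_mk]
      have e3 : ∑' u : σ → ℤ, (∏ ξ, shf φ ((fun i => -(a i l : ℤ)) + m) ξ (lam a u N ξ)) *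
          X ^ (∑ l', u l') = ∑' u : σ → ℤ,
          (∏ ξ, shf φ ((fun i => -(a i l : ℤ)) + m) ξ (lam a (u - (Pi.single l 1 : σ → ℤ)) N ξ)) *
            X ^ (∑ l', (u - (Pi.single l 1 : σ → ℤ)) l') :=
        ((Equiv.subRight (Pi.single l (1 : ℤ) : σ → ℤ)).tsum_eq (fun u : σ → ℤ =>
          (∏ ξ, shf φ ((fun i => -(a i l : ℤ)) + m) ξ (lam a u N ξ)) *
          X ^ (∑ l', u l'))).symm
      rw [e3, ← tsum_mul_left,
        ← (hOK m N).tsum_sub ((hS3 ((fun i => -(a i l : ℤ)) + m) N).mul_left X)]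
      exact tsum_congr fun u => rlb_key a X hX φ l hl m N u
    induction h using AddMonoidAlgebra.induction_linear with
    | zero => rw [mul_zero, map_zero, map_zero]
    | add f g hf hg => rw [mul_add, map_add, map_add, hf, hg]
    | single m c =>
      rw [sub_mul, one_mul, map_sub, AddMonoidAlgebra.single_mul_single, Lc_single, Lc_single,
        Lc_single]
      refine PowerSeries.ext fun N => ?_
      have h1 : PowerSeries.coeff N (c • SerC a X (shf φ m)) =
          c * PowerSeries.coeff N (SerC a X (shf φ m)) := by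
        rw [PowerSeries.coeff_smul, smul_eq_mul]
      have h2 : PowerSeries.coeff N ((X * c) • SerC a X (shf φ ((fun i => -(a i l : ℤ)) + m))) =
          (X * c) * PowerSeries.coeff N (SerC a X (shf φ ((fun i => -(a i l : ℤ)) + m))) := by
        rw [PowerSeries.coeff_smul, smul_eq_mul]
      rw [(PowerSeries.coeff (R := ℂ) N).map_sub, h1, h2, PowerSeries.coeff_smul, smul_eq_mul,
        key m N]
      ring

end Pool.Newt3
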